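import Mathlib
import Pool.Agent.H25.TernaryD

set_option autoImplicit false

open Polynomial

namespace Pool.Agent.Results.MP_62a4f2_nt.StrictInequality

/-- `A(n)`: the height of the `n`-th cyclotomic polynomial, the largest absolute value of one of
its coefficients. -/
noncomputable def height (n : ℕ) : ℕ :=
  (cyclotomic n ℤ).support.sup (fun k => ((cyclotomic n ℤ).coeff k).natAbs)

/-- `M(p) = max {A(pqr) : p < q < r}`, where `q, r` run over primes. -/
noncomputable def maxHeight (p : ℕ) : ℕ :=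
  sSup {h : ℕ | ∃ q r : ℕ, q.Prime ∧ r.Prime ∧ p < q ∧ q < r ∧ height (p * q * r) = h}

/-- `M(p;q) = max {A(pqr) : r > q}`, where `r` runs over primes. -/
noncomputable def maxHeightAt (p q : ℕ) : ℕ :=
  sSup {h : ℕ | ∃ r : ℕ, r.Prime ∧ q < r ∧ height (p * q * r) = h}

/-- the sets over which the maxima are taken are bounded. -/
lemma height_le (p q r : ℕ) (hp : p.Prime) (hq : q.Prime) (hr : r.Prime)
    (hpq : p < q) (hqr : q < r) : height (p * q * r) ≤ p ^ 2 := by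
  unfold height
  apply Finset.sup_le
  intro k _
  have := Pool.Agent.H25.Ternary.coeff_bound p q r k hp hq hr hpq hqr
  zify
  exact this

lemma coeff_le_height (n k : ℕ) : ((cyclotomic n ℤ).coeff k).natAbs ≤ height n := by
  by_cases h : k ∈ (cyclotomic n ℤ).support
  · exact Finset.le_sup (f := fun k => ((cyclotomic n ℤ).coeff k).natAbs) h
  · rw [Polynomial.notMem_support_iff] at h
    rw [h]; exact Nat.zero_le _

lemma height_attained (n : ℕ) : ∃ k, ((cyclotomic n ℤ).coeff k).natAbs = height n := by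
  have hne : (cyclotomic n ℤ).support.Nonempty :=
    Polynomial.support_nonempty.2 (cyclotomic_ne_zero n ℤ)
  obtain ⟨k, _, hk⟩ := Finset.exists_mem_eq_sup _ hne
    (fun k => ((cyclotomic n ℤ).coeff k).natAbs)
  exact ⟨k, hk.symm⟩

lemma bddAt (p q : ℕ) (hp : p.Prime) (hq : q.Prime) (hpq : p < q) :
    BddAbove {h : ℕ | ∃ r : ℕ, r.Prime ∧ q < r ∧ height (p * q * r) = h} :=
  ⟨p ^ 2, by rintro _ ⟨r, hr, hqr, rfl⟩; exact height_le p q r hp hq hr hpq hqr⟩

lemma attainedAt (p q : ℕ) (hp : p.Prime) (hq : q.Prime) (hpq : p < q) :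
    ∃ r : ℕ, r.Prime ∧ q < r ∧ height (p * q * r) = maxHeightAt p q := by
  apply Nat.sSup_mem _ (bddAt p q hp hq hpq)
  obtain ⟨r, hr1, hr2⟩ := Nat.exists_infinite_primes (q + 1)
  exact ⟨_, r, hr2, hr1, rfl⟩

/-- For all large primes `q ≡ q₁ (mod p)` one has `M(p;q₁) ≤ M(p;q)`. -/
lemma maxHeightAt_mono (p q₁ q : ℕ) (hp : p.Prime) (hq₁ : q₁.Prime) (hq : q.Prime)
    (hpq : p < q₁) (hqq : q ≡ q₁ [MOD p])
    (hbig : ((2 * p + p ^ 2) * q₁ + 1) * q₁ ≤ q) : maxHeightAt p q₁ ≤ maxHeightAt p q := by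
  obtain ⟨r₁, hr₁, hqr₁, h1⟩ := attainedAt p q₁ hp hq₁ hpq
  obtain ⟨k₁, hk₁⟩ := height_attained (p * q₁ * r₁)
  obtain ⟨r, k, hr, hqr, hk⟩ := Pool.Agent.H25.Ternary.transfer p q₁ r₁ k₁ hp hq₁ hr₁ hpq hqr₁
    q hq hqq hbig
  have hpq' : p < q := by
    have h2 : q₁ ≤ ((2 * p + p ^ 2) * q₁ + 1) * q₁ := Nat.le_mul_of_pos_left _ (Nat.succ_pos _)
    omega
  rw [← h1, ← hk₁, ← hk]
  exact (coeff_le_height _ _).trans (le_csSup (bddAt p q hp hq hpq') ⟨r, hr, hqr, rfl⟩)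

/-- **Theorem.**  Let `p` be an odd prime, `f ≥ 1` an integer (for instance the ternary conductor
of `p`) and `a` an integer coprime to `f`.  If `M(p;q) < M(p)` for all sufficiently large primes
`q ≡ a (mod f)`, then `M(p;q) < M(p)` for every prime `q > p` with `q ≡ a (mod f)`. -/
theorem result (p : ℕ) (hp : p.Prime) (_hp2 : p ≠ 2) (f : ℕ) (hf : 1 ≤ f) (a : ℤ)
    (ha : IsCoprime a (f : ℤ))
    (hlarge : ∃ Q : ℕ, ∀ q : ℕ, q.Prime → Q ≤ q → (q : ℤ) ≡ a [ZMOD (f : ℤ)] →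
      maxHeightAt p q < maxHeight p) :
    ∀ q : ℕ, q.Prime → p < q → (q : ℤ) ≡ a [ZMOD (f : ℤ)] → maxHeightAt p q < maxHeight p := by
  intro q₁ hq₁ hpq hqa
  by_contra hcon
  push Not at hcon
  obtain ⟨Q, hQ⟩ := hlarge
  -- q₁ is coprime to p * f
  have hcf : Nat.Coprime q₁ f := by
    rw [← Nat.isCoprime_iff_coprime]
    obtain ⟨c, hc⟩ := (Int.modEq_iff_dvd.1 hqa)
    obtain ⟨u, v, huv⟩ := ha
    refine ⟨u, u * c + v, ?_⟩
    have : (a : ℤ) = q₁ + f * c := by linarith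
    rw [this] at huv
    linarith
  have hcp : Nat.Coprime q₁ p := (Nat.coprime_primes hq₁ hp).2 hpq.ne'
  have hunit : IsUnit ((q₁ : ℕ) : ZMod (p * f)) := by
    rw [ZMod.isUnit_iff_coprime]
    exact Nat.Coprime.mul_right hcp hcf
  have : NeZero (p * f) := ⟨(Nat.mul_pos hp.pos hf).ne'⟩
  obtain ⟨q, hq1, hq2, hq3⟩ := Nat.forall_exists_prime_gt_and_eq_mod hunit
    (max Q (((2 * p + p ^ 2) * q₁ + 1) * q₁))
  have h1 : q ≡ q₁ [MOD p * f] := (ZMod.natCast_eq_natCast_iff _ _ _).1 hq3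
  have h2 : maxHeightAt p q < maxHeight p := by
    apply hQ q hq2 ((le_max_left _ _).trans hq1.le)
    exact ((Int.natCast_modEq_iff).2 (h1.of_mul_left p)).trans hqa
  have h3 := maxHeightAt_mono p q₁ q hp hq₁ hq2 hpq (h1.of_mul_right f)
    ((le_max_right _ _).trans hq1.le)
  omega

end Pool.Agent.Results.MP_62a4f2_nt.StrictInequality
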